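import Pool.Agent.H73.G.R8.Y124.Taylor

/-!
# Nonvanishing of a Taylor coefficient of a combination of products of independent functions
-/

set_option autoImplicit false

open Finset Filter Topology

namespace Pool.Agent.Y124

variable {𝕜 : Type*} [RCLike 𝕜]

theorem tc_sum {ι : Type*} (S : Finset ι) (c : ι → 𝕜) (g : ι → 𝕜 → 𝕜) (t0 : 𝕜)
    (hg : ∀ i, AnalyticAt 𝕜 (g i) t0) (η : ℕ) :
    tc (fun t => ∑ i ∈ S, c i * g i t) t0 η = ∑ i ∈ S, c i * tc (g i) t0 η := by
  classical
  induction S using Finset.induction_on with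
  | empty =>
    simp only [sum_empty]
    unfold tc
    rw [iteratedDeriv_fun_const_zero]
    simp
  | insert a S ha ih =>
    simp only [sum_insert ha]
    rw [← ih]
    unfold tc
    have h1 : ContDiffAt 𝕜 η (fun t => c a * g a t) t0 := contDiffAt_const.mul (hg a).contDiffAt
    have h2 : ContDiffAt 𝕜 η (fun t => ∑ i ∈ S, c i * g i t) t0 :=
      ContDiffAt.sum fun i _ => contDiffAt_const.mul (hg i).contDiffAt
    rw [iteratedDeriv_fun_add h1 h2, iteratedDeriv_const_mul_field]
    ring

end Pool.Agent.Y124
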