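import Pool.Agent.H73.G.R8.Y124.Indep

/-!
# Approximate relations at rational points, functions with values in `ℝ` or `ℂ`
-/

set_option autoImplicit false

open Filter Topology MvPolynomial

namespace Pool.Agent.Y124

variable {𝕜 : Type} [RCLike 𝕜]

/-- algebraic independence near a point -/
def LocInd {Y₀ : Type} (f : Y₀ → 𝕜 → 𝕜) (t0 : 𝕜) : Prop :=
  ∀ P : MvPolynomial (Option Y₀) 𝕜, (∀ᶠ t in 𝓝 t0, eval (fun o => o.elim t fun y => f y t) P = 0) → P = 0

end Pool.Agent.Y124
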